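import Pool.Agent.Helper98.GY.Stmts
import Pool.Agent.Helper93.IZ.FXC

/-!
Row FXC of the sheet GY (MP_7a8f48_an): the theorem for continuous functions. Port of
Helper93.IZ.FXC.
-/

open Finset Filter MeasureTheory Topology
open scoped ComplexConjugate InnerProductSpace

namespace Pool.Agent.Helper19.GY

open Pool.Agent.Helper98.GY (ST_FXC ST_MOD ST_CYC ST_GRI Mod RI UR Good Full IsoExt FibreCts)
open Pool.Agent.Helper16.AZ (E Op)
open Pool.Agent.Helper16.BZ (co ff EQ)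
open Pool.Agent.Helper16.MD (MS)
open Pool.Agent.Helper40.IZ (ST_HMS ST_FDE cf fxc_lim fxc_conj)

theorem fxc_iter {X Y : Type} [MetricSpace X] [MetricSpace Y] {π : X → Y} {S : Y → Y} {τ : X → X}
    {M : Type} [MetricSpace M] {Θ : Y → Set C(M, X)} (h : Mod π S τ M Θ) (n : ℕ) :
    ∀ y, ∀ θ ∈ Θ y, ∃ θ' ∈ Θ (S^[n] y), ∀ m, θ' m = τ^[n] (θ m) := by
  induction n with
  | zero => intro y θ hθ; exact ⟨θ, hθ, fun _ => rfl⟩
  | succ n ih =>
    intro y θ hθ
    obtain ⟨θ₁, h1, h2⟩ := ih y θ hθ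
    obtain ⟨θ₂, h3, h4⟩ := h.2.2.2.2.1 _ θ₁ h1
    refine ⟨θ₂, ?_, fun m => ?_⟩
    · rw [Function.iterate_succ_apply']
      exact h3
    · rw [h4, h2, Function.iterate_succ_apply']

theorem st_FXC : ST_MOD → ST_HMS → ST_FDE → ST_CYC → ST_GRI → ST_FXC := by
  intro hMOD hHMS hFDE hCYC hGRI X Y _ _ _ _ _ _ ν _ π S τ ρ hI hG hE hFull hSc hSm hF F x
  obtain ⟨M, _, _, Θ, hne, hMod⟩ := hMOD X Y ν π S τ ρ x hI hE hFull
  let _ : MeasurableSpace M := borel M
  have : BorelSpace M := ⟨rfl⟩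
  obtain ⟨μ, hμ, hpos, hinv⟩ := hHMS M
  -- the compact set of functions
  set K : Set C(M, ℂ) := (fun p : Y × C(M, X) => F.comp p.2) ''
    {p : Y × C(M, X) | p.2 ∈ Θ p.1} with hK
  have hKc : IsCompact K := by
    refine hMod.2.2.2.2.2.image ?_
    exact (ContinuousMap.continuous_postcomp F).comp continuous_snd
  -- the point
  obtain ⟨θ, hθ⟩ := hMod.1 (π x)
  obtain ⟨m₀, hm₀⟩ := ((hMod.2.1 _ θ hθ).2 x).mp rfl
  apply fxc_lim
  intro ε hε
  obtain ⟨d, e, w, hFr, happ⟩ := hFDE M μ hpos hinv K hKc ε hε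
  obtain ⟨φ, hφ, hCY⟩ := hCYC X Y ν π S τ M μ Θ d e hMod hFr hSc hSm hF
  obtain ⟨f, hf, hU⟩ := hCY F
  obtain ⟨U, hUu, hUn⟩ := hU (π x) θ hθ
  refine ⟨fun n => conj (ff S φ f ((star U) (w m₀)) (π x) n), ?_, ?_⟩
  · intro n
    obtain ⟨θ', h1, h2⟩ := fxc_iter hMod n (π x) θ hθ
    have h3 := happ (F.comp θ') ⟨(S^[n] (π x), θ'), h1, rfl⟩ m₀
    have h4 : (fun m => (F.comp θ') m) = fun m => F (τ^[n] (θ m)) := by
      funext m
      rw [ContinuousMap.comp_apply, h2]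
    have h5 : (F.comp θ') m₀ = F (τ^[n] x) := by
      rw [ContinuousMap.comp_apply, h2, hm₀]
    have h6 : inner ℂ (w m₀) (cf μ e (F.comp θ')) =
        conj (ff S φ f ((star U) (w m₀)) (π x) n) := by
      have h7 : cf μ e (F.comp θ') = U (star (co S φ n (π x)) (f (S^[n] (π x)))) := by
        rw [← hUn n, ← h4]
      rw [h7]
      unfold ff
      rw [inner_conj_symm]
      rw [ContinuousLinearMap.star_eq_adjoint, ContinuousLinearMap.star_eq_adjoint,
        ← ContinuousLinearMap.adjoint_inner_left, ContinuousLinearMap.adjoint_inner_right]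
    rw [h5, h6] at h3
    exact h3
  · have h1 := hGRI Y ν S hG hE d φ f ((star U) (w m₀)) (π x) hφ hf
    have h2 : (fun N : ℕ => MS (fun n => conj (ff S φ f ((star U) (w m₀)) (π x) n)) N / (N : ℂ)) =
        fun N : ℕ => conj (MS (ff S φ f ((star U) (w m₀)) (π x)) N / (N : ℂ)) := by
      funext N
      rw [← fxc_conj]
    rw [h2]
    have h3 := (Complex.continuous_conj.tendsto 0).comp h1
    rw [map_zero] at h3
    exact h3

end Pool.Agent.Helper19.GY
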