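import Pool.Agent.Helper98.GY.Stmts

/-!
Row RXS of the sheet GY: functions which are continuous at almost all fibres are near continuous
functions (MP_7a8f48_an). Port of Helper62.IZ.RXS.
-/

open Finset Filter MeasureTheory Topology
open scoped ComplexConjugate InnerProductSpace

namespace Pool.Agent.Helper19.GY

open Pool.Agent.Helper98.GY (ST_RXS IsoExt FibreCts)

theorem st_RXS : ST_RXS := by
  intro X Y _ _ _ _ _ _ ν _ π F C hπ hC hF ε hε
  set C₁ : ℝ := max C 1 with hC₁
  have hC₁pos : 0 < C₁ := lt_of_lt_of_le one_pos (le_max_right _ _)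
  have hFC : ∀ x, ‖F x‖ ≤ C₁ := fun x => (hC x).trans (le_max_left _ _)
  have hbad : ν {y | ¬ ∀ x, π x = y → ContinuousAt F x} = 0 := hF
  obtain ⟨U, hbU, hU, hUm⟩ := Set.exists_isOpen_lt_of_lt
    {y | ¬ ∀ x, π x = y → ContinuousAt F x} (ENNReal.ofReal (ε / (4 * C₁))) (μ := ν) (by
      rw [hbad, ENNReal.ofReal_pos]
      positivity)
  have hgood : ∀ x, π x ∉ U → ContinuousAt F x := by
    intro x hx
    by_contra hcon
    exact hx (hbU (fun h => hcon (h x rfl)))
  have hKc : IsClosed (π ⁻¹' Uᶜ) := hU.isClosed_compl.preimage hπ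
  have hfc : Continuous fun x : π ⁻¹' Uᶜ => F x := by
    rw [continuous_iff_continuousAt]
    intro x
    exact (hgood x x.2).comp continuousAt_subtype_val
  obtain ⟨G₁, hG₁⟩ := ContinuousMap.exists_restrict_eq hKc ⟨_, hfc⟩
  have hG₁' : ∀ x, π x ∉ U → G₁ x = F x := fun x hx =>
    congrArg (fun g : C(π ⁻¹' Uᶜ, ℂ) => g ⟨x, hx⟩) hG₁
  have hmaxpos : ∀ x, 0 < max C₁ ‖G₁ x‖ := fun x => lt_max_of_lt_left hC₁pos
  set G : C(X, ℂ) := ⟨fun x => ((C₁ / max C₁ ‖G₁ x‖ : ℝ) : ℂ) * G₁ x, by
    refine Continuous.mul (Complex.continuous_ofReal.comp ?_) G₁.continuous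
    exact continuous_const.div (by fun_prop) fun x => (hmaxpos x).ne'⟩ with hG
  have hGapp : ∀ x, G x = ((C₁ / max C₁ ‖G₁ x‖ : ℝ) : ℂ) * G₁ x := fun _ => rfl
  have hGC : ∀ x, ‖G x‖ ≤ C₁ := by
    intro x
    rw [hGapp, norm_mul, Complex.norm_real, Real.norm_of_nonneg (by positivity), div_mul_eq_mul_div,
      div_le_iff₀ (hmaxpos x)]
    exact mul_le_mul_of_nonneg_left (le_max_right _ _) hC₁pos.le
  have hGF : ∀ x, π x ∉ U → G x = F x := by
    intro x hx
    rw [hGapp, hG₁' x hx, max_eq_left (hFC x), div_self hC₁pos.ne', Complex.ofReal_one, one_mul]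
  set W : Set X := interior {x | ‖F x - G x‖ ≤ ε / 2} with hW
  have hWK : ∀ x, π x ∉ U → x ∈ W := by
    intro x hx
    rw [hW, mem_interior_iff_mem_nhds]
    have h1 : ContinuousAt (fun x => F x - G x) x := (hgood x hx).sub G.continuous.continuousAt
    have h2 := h1.eventually_mem (Metric.closedBall_mem_nhds (F x - G x) (half_pos hε))
    filter_upwards [h2] with x' hx'
    rw [mem_closedBall_iff_norm, hGF x hx, sub_self, sub_zero] at hx'
    exact hx'
  have htc : IsClosed (π '' Wᶜ) :=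
    ((isOpen_interior.isClosed_compl.isCompact).image hπ).isClosed
  have hdisj : Disjoint (Uᶜ : Set Y) (π '' Wᶜ) := by
    rw [Set.disjoint_left]
    rintro _ hy ⟨x, hx, rfl⟩
    exact hx (hWK x hy)
  obtain ⟨ρ, hρ0, hρ1, hρ⟩ := exists_continuous_zero_one_of_isClosed hU.isClosed_compl htc hdisj
  refine ⟨G, ⟨fun y => ε / 2 + 2 * C₁ * ρ y, by fun_prop⟩, ?_, ?_⟩
  · intro x
    change _ ≤ ε / 2 + 2 * C₁ * ρ (π x)
    by_cases hx : x ∈ W
    · have h0 : x ∈ {x | ‖F x - G x‖ ≤ ε / 2} := interior_subset hx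
      have h1 : ‖F x - G x‖ ≤ ε / 2 := h0
      have h2 := (hρ (π x)).1
      have h3 : 0 ≤ 2 * C₁ * ρ (π x) := by positivity
      linarith
    · have h1 : ρ (π x) = 1 := hρ1 ⟨x, hx, rfl⟩
      have h2 := norm_sub_le (F x) (G x)
      rw [h1]
      linarith [hFC x, hGC x]
  · change ∫ y, ε / 2 + 2 * C₁ * ρ y ∂ν ≤ ε
    have hρi : Integrable (fun y => ρ y) ν :=
      ρ.continuous.integrable_of_hasCompactSupport (HasCompactSupport.of_compactSpace _)
    have h1 : ∫ y, ρ y ∂ν ≤ (ν.real U) := by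
      rw [← integral_indicator_one hU.measurableSet]
      refine integral_mono hρi ((integrable_const (1 : ℝ)).indicator hU.measurableSet) fun y => ?_
      by_cases hy : y ∈ U
      · rw [Set.indicator_of_mem hy]
        exact (hρ y).2
      · rw [Set.indicator_of_notMem hy]
        exact (hρ0 hy).le
    have h2 : (ν.real U) ≤ ε / (4 * C₁) := by
      rw [Measure.real]
      exact ENNReal.toReal_le_of_le_ofReal (by positivity) hUm.le
    rw [integral_add (integrable_const _) (hρi.const_mul _), integral_const_mul, integral_const]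
    simp only [probReal_univ, smul_eq_mul, one_mul]
    calc ε / 2 + 2 * C₁ * ∫ y, ρ y ∂ν ≤ ε / 2 + 2 * C₁ * (ε / (4 * C₁)) := by
          gcongr
          exact h1.trans h2
      _ = ε := by field_simp; ring

end Pool.Agent.Helper19.GY
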